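import Pool.Agent.H110R3.UF.Stmts

/-! Task Ctx. -/

set_option autoImplicit false

open CategoryTheory MonoidalCategory CategoryTheory.Limits
open scoped Matrix

universe v u

namespace Pool.Agent.H358R3.UF

open Pool.Agent.H110R3.UF

theorem taskCtx : TaskCtx.{v, u} := by
  intro hS hD hU C _ _ _ _ hF R G hG
  classical
  obtain ⟨dl, coef, dl_self, dl_ne, coef_dl, eq_coef, dec⟩ := hS C R
  have hdual : ∀ a b, ∃ B' : ∀ c, Fin (G.N a b c) → (R.S a ⊗ R.S b ⟶ R.S c),
      (∀ c k c' k', G.basis a b c k ≫ B' c' k' =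
        if (⟨c, k⟩ : Σ c, Fin (G.N a b c)) = ⟨c', k'⟩ then dl c c' else 0) ∧
      ∑ p : Σ c, Fin (G.N a b c), B' p.1 p.2 ≫ G.basis a b p.1 p.2 = 𝟙 (R.S a ⊗ R.S b) := by
    intro a b
    exact hD C R.n R.S dl coef dl_self dl_ne coef_dl eq_coef (R.S a ⊗ R.S b) (dec _)
      (fun c => G.N a b c) (fun c => G.basis a b c)
  choose G' hG'1 hG'2 using hdual
  obtain ⟨o, oinc, oprj, ho1, ho2, lun, run⟩ :=
    hU C R G hG dl coef dl_self dl_ne coef_dl eq_coef G' hG'1 hG'2
  choose M hM1 hM2 hM3 using hG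
  have Finv : ∀ a b c d (q : G.RPath a b c d),
      G.rvec q ≫ (α_ _ _ _).inv = ∑ p, star (M a b c d p q) • G.lvec p := by
    intro a b c d q
    have h1 : ∀ p, G.lvec p = ∑ q, M a b c d p q • (G.rvec q ≫ (α_ _ _ _).inv) := by
      intro p
      have h2 := hM1 a b c d p
      have h3 : G.lvec p = (G.lvec p ≫ (α_ _ _ _).hom) ≫ (α_ _ _ _).inv := by
        rw [Category.assoc, Iso.hom_inv_id, Category.comp_id]
      rw [h3, h2, Preadditive.sum_comp]
      refine Finset.sum_congr rfl fun q _ => ?_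
      rw [Linear.smul_comp]
    have h4 : ∑ p, star (M a b c d p q) • G.lvec p =
        ∑ p, ∑ q', (star (M a b c d p q) * M a b c d p q') •
          (G.rvec q' ≫ (α_ _ _ _).inv) := by
      refine Finset.sum_congr rfl fun p _ => ?_
      conv_lhs => rw [h1 p]
      rw [Finset.smul_sum]
      refine Finset.sum_congr rfl fun q' _ => ?_
      rw [smul_smul]
    rw [h4, Finset.sum_comm]
    have h5 : ∀ q', ∑ p, (star (M a b c d p q) * M a b c d p q') •
        (G.rvec q' ≫ (α_ _ _ _).inv) =
        (if q = q' then (1 : ℂ) else 0) • (G.rvec q' ≫ (α_ _ _ _).inv) := by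
      intro q'
      rw [← Finset.sum_smul]
      congr 1
      have h6 := congrFun (congrFun (hM3 a b c d) q) q'
      rw [Matrix.mul_apply, Matrix.one_apply] at h6
      simpa [Matrix.conjTranspose_apply] using h6
    simp_rw [h5]
    simp
  refine ⟨{
    n := R.n
    S := R.S
    N := G.N
    G := fun a b c k => G.basis a b c k
    G' := G'
    dl := dl
    coef := coef
    dl_self := dl_self
    dl_ne := dl_ne
    coef_dl := coef_dl
    eq_coef := eq_coef
    ortho := hG'1
    total := hG'2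
    Fm := fun a b c d e f i j k l => M a b c d ⟨e, i, j⟩ ⟨f, k, l⟩
    F_hom := ?_
    F_inv := ?_
    o := o
    oinc := oinc
    oprj := oprj
    oinc_oprj := ho1
    oprj_oinc := ho2
    lunit := lun
    runit := run
    dec := dec }⟩
  · intro a b c d e i j
    have h := hM1 a b c d ⟨e, i, j⟩
    unfold Gauge.lvec Gauge.rvec at h
    rw [Category.assoc] at h
    rw [h, Fintype.sum_sigma]
    refine Finset.sum_congr rfl fun f _ => ?_
    rw [Fintype.sum_prod_type]
  · intro a b c d f k l
    have h := Finv a b c d ⟨f, k, l⟩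
    unfold Gauge.lvec Gauge.rvec at h
    rw [Category.assoc] at h
    rw [h, Fintype.sum_sigma]
    refine Finset.sum_congr rfl fun e _ => ?_
    rw [Fintype.sum_prod_type]

end Pool.Agent.H358R3.UF
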