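import Pool.Agent.H110R3.UF.Stmts

/-! Task Schur. -/

set_option autoImplicit false

open CategoryTheory MonoidalCategory CategoryTheory.Limits

universe v u

namespace Pool.Agent.H358R3.UF

open Pool.Agent.H110R3.UF

theorem taskSchur : TaskSchur.{v, u} := by
  intro C _ _ _ _ hF R
  classical
  haveI hsimp : ∀ a, Simple (R.S a) := R.simple
  haveI hfin : ∀ X Y : C, FiniteDimensional ℂ (X ⟶ Y) := hF.finite_hom
  let dl : ∀ a b, R.S a ⟶ R.S b := fun a b => if h : a = b then eqToHom (by rw [h]) else 0
  have dl_self : ∀ a, dl a a = 𝟙 (R.S a) := by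
    intro a
    simp [dl]
  have dl_ne : ∀ a b, a ≠ b → dl a b = 0 := by
    intro a b h
    simp [dl, h]
  have key : ∀ a b, ∃ φ : (R.S a ⟶ R.S b) →ₗ[ℂ] ℂ, φ (dl a b) = (if a = b then 1 else 0) ∧
      ∀ g, g = φ g • dl a b := by
    intro a b
    by_cases hab : a = b
    · subst hab
      have hinj : Function.Injective (LinearMap.toSpanSingleton ℂ (R.S a ⟶ R.S a) (𝟙 (R.S a))) := by
        rw [injective_iff_map_eq_zero]
        intro c hc
        rw [LinearMap.toSpanSingleton_apply, smul_eq_zero] at hc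
        rcases hc with hc | hc
        · exact hc
        · exact absurd hc (id_nonzero (R.S a))
      have hsurj : Function.Surjective
          (LinearMap.toSpanSingleton ℂ (R.S a ⟶ R.S a) (𝟙 (R.S a))) := by
        intro g
        obtain ⟨c, hc⟩ := endomorphism_simple_eq_smul_id ℂ g
        exact ⟨c, by rw [LinearMap.toSpanSingleton_apply]; exact hc⟩
      let E := LinearEquiv.ofBijective _ ⟨hinj, hsurj⟩
      refine ⟨E.symm.toLinearMap, ?_, fun g => ?_⟩
      · rw [dl_self, if_pos rfl]
        show E.symm (𝟙 (R.S a)) = 1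
        rw [LinearEquiv.symm_apply_eq]
        show 𝟙 (R.S a) = LinearMap.toSpanSingleton ℂ (R.S a ⟶ R.S a) (𝟙 (R.S a)) 1
        rw [LinearMap.toSpanSingleton_apply, one_smul]
      · rw [dl_self]
        have h1 : E (E.symm g) = g := E.apply_symm_apply g
        have h2 : E (E.symm g) = (E.symm g) • 𝟙 (R.S a) :=
          LinearMap.toSpanSingleton_apply ℂ _ _ _
        exact (h2.symm.trans h1).symm
    · refine ⟨0, ?_, fun g => ?_⟩
      · rw [if_neg hab]
        rfl
      · rw [dl_ne a b hab, smul_zero]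
        by_contra hg
        haveI := isIso_of_hom_simple hg
        exact hab (R.inj a b ⟨asIso g⟩)
  choose coef hc1 hc2 using key
  refine ⟨dl, coef, dl_self, dl_ne, hc1, hc2, fun X => ?_⟩
  obtain ⟨n, Y, inc, prj, hs, h1, h2, h3⟩ := hF.semisimple X
  choose s hs' using fun i => R.all (Y i) (hs i)
  let e : ∀ i, Y i ≅ R.S (s i) := fun i => (hs' i).some
  refine ⟨n, s, fun i => (e i).inv ≫ inc i, fun i => prj i ≫ (e i).hom, fun i j => ?_, ?_⟩
  · by_cases hij : i = j
    · subst hij
      rw [if_pos rfl, dl_self, Category.assoc, ← Category.assoc (inc i), h1, Category.id_comp,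
        Iso.inv_hom_id]
    · rw [if_neg hij, Category.assoc, ← Category.assoc (inc i), h2 i j hij, zero_comp, comp_zero]
  · rw [← h3]
    refine Finset.sum_congr rfl fun i _ => ?_
    rw [Category.assoc, Iso.hom_inv_id_assoc]

end Pool.Agent.H358R3.UF
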